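import Pool.Agent.V5helper77.GS.Main

/-!
# The motivic Tate conjecture and cubic hypersurfaces: definitions
-/

set_option autoImplicit false

open CategoryTheory CategoryTheory.Limits AlgebraicGeometry Pool.Agent.Y116.UV
  Pool.Agent.V5helper77.GW Pool.Agent.V5helper77.GS

namespace Pool.Agent.V5helper48.MT

/-- The data of a category of motives over the field `k` of characteristic zero: an abelian
category `C` (the motives of André), the graded pieces `V w n X = Gr^W_w H^n_c(X)` of the cohomology with
compact support of the schemes over `k`, the Tate twists `(tw r).obj M = M(-r)`, and the `ℓ`-adic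
realization `F`, with values in the representations of the absolute Galois group over the field
`Ω = ℚ_ℓ`. -/
structure Motives (k : Type) [Field k] (Ω : Type) [Field Ω] where
  /-- the category of motives -/
  C : Type 1
  [category : Category.{0} C]
  [abelian : Abelian C]
  /-- `Gr^W_w H^n_c(X)` -/
  V : ℤ → ℤ → Sch k → C
  /-- Tate twists -/
  tw : ℤ → C ⥤ C
  /-- the realization -/
  F : C ⥤ Rep.{0} Ω (Field.absoluteGaloisGroup k)

attribute [instance] Motives.category Motives.abelian

section

variable {k : Type} [Field k] {Ω : Type} [Field Ω]

/-- The linear map between the realizations which is given by a morphism of motives. -/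
noncomputable def Motives.real (T : Motives k Ω) {M N : T.C} (f : M ⟶ N) :
    T.F.obj M →ₗ[Ω] T.F.obj N :=
  (T.F.map f).hom.toLinearMap

/-- The linear map `φ` commutes with the action of the group. -/
def IsEquivariant {G : Type} [Group G] {A B : Rep.{0} Ω G} (φ : A →ₗ[Ω] B) : Prop :=
  ∀ g x, φ (act A g x) = act B g (φ x)

/-- The linear map `φ` is the realization of a homomorphism of motives. -/
def Motives.IsMotivic (T : Motives k Ω) {M N : T.C} (φ : T.F.obj M →ₗ[Ω] T.F.obj N) : Prop :=
  ∃ f : M ⟶ N, T.real f = φ

/-- The map `Hom(M, N) ⊗ Ω → Hom_Γ(F M, F N)` is surjective: every homomorphism of Galois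
representations between the realizations is a linear combination of realizations of morphisms of
motives. -/
def Motives.Full (T : Motives k Ω) (M N : T.C) : Prop :=
  ∀ φ : T.F.obj M →ₗ[Ω] T.F.obj N, IsEquivariant φ →
    ∃ (n : ℕ) (c : Fin n → Ω) (f : Fin n → (M ⟶ N)), ∀ x, φ x = ∑ i, c i • T.real (f i) x

/-- The realization of the motive is a semisimple representation. -/
def Motives.Semisimple (T : Motives k Ω) (M : T.C) : Prop := IsSemisimpleRep (T.F.obj M)

/-- The motivic Tate conjecture for the motives in the class `P`: their realizations are semisimple,
and the homomorphisms between the realizations come from homomorphisms of motives. -/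
def Motives.TateOn (T : Motives k Ω) (P : T.C → Prop) : Prop :=
  ∀ M N : T.C, P M → P N → T.Semisimple M ∧ T.Full M N

/-- The smallest class of objects which contains the class `P` and which is closed under direct sums and
direct summands. -/
inductive Gen {C : Type 1} [Category.{0} C] [Abelian C] (P : C → Prop) : C → Prop
  | of {M : C} : P M → Gen P M
  | zero {M : C} : IsZero M → Gen P M
  | retract {M N : C} (i : M ⟶ N) (r : N ⟶ M) : i ≫ r = 𝟙 M → Gen P N → Gen P M
  | sum {M N : C} : Gen P M → Gen P N → Gen P (M ⊞ N)

/-- The Tate twists of the motives `Gr^W_w H^n_c(X)`, for all schemes `X` of the class `𝒳`, and for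
`X = Spec k`. -/
def Motives.From (T : Motives k Ω) (𝒳 : Sch k → Prop) (M : T.C) : Prop :=
  ∃ X : Sch k, (𝒳 X ∨ X = aff k k) ∧ ∃ w n r : ℤ, M = (T.tw r).obj (T.V w n X)

/-- The motivic Tate conjecture for the Tate twists of the motives `Gr^W_w H^n_c(X)`, `X` in `𝒳` (or
the point). -/
def Motives.TateFor (T : Motives k Ω) (𝒳 : Sch k → Prop) : Prop := T.TateOn (T.From 𝒳)

/-- The smooth projective varieties of dimension at most `n`. -/
def SmProjUpTo (n : ℕ) (X : Sch k) : Prop := IsSmProj X ∧ topologicalKrullDim X.left ≤ n

/-- The separated schemes of finite type of dimension at most `n`. -/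
def SchemesUpTo (n : ℕ) (X : Sch k) : Prop := FT True X ∧ topologicalKrullDim X.left ≤ n

/-- The hypersurfaces `S(x, y, z) = 1`, `S` a trilinear form over `k` one of whose three blocks of
variables has at most `m` variables. -/
def CubicsUpTo (m : ℕ) (X : Sch k) : Prop :=
  ∃ (a b c : ℕ) (S : Fin a → Fin b → Fin c → k), (a ≤ m ∨ b ≤ m ∨ c ≤ m) ∧ X = hypS S

/-- The cubic hypersurfaces `∑_{(i, j, k) ∈ H} x_i y_j z_k = 1` over `ℚ`, for all tripartite
hypergraphs `H`. -/
def HypergraphCubics (X : Sch ℚ) : Prop :=
  ∃ (a b c : ℕ) (H : Finset (Fin a × Fin b × Fin c)), X = tripS ℚ H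

/-- The properties of the motives: those in `IsWeightTheory` (semisimplicity of the category,
localization, affine bundles, products with `𝔾_m`, purity), additivity of the functors, the composition
of Tate twists, and all motives are direct summands of sums of Tate twists of the cohomology of
smooth projective varieties (by the definition of motives). -/
structure IsMotives (T : Motives k Ω) : Prop where
  theory : IsWeightTheory T.V fun r => (T.tw r).obj
  additive : T.F.Additive
  tw_additive : ∀ r, (T.tw r).Additive
  tw_zero : ∀ M : T.C, Nonempty ((T.tw 0).obj M ≅ M)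
  tw_add : ∀ (r s : ℤ) (M : T.C), Nonempty ((T.tw r).obj ((T.tw s).obj M) ≅ (T.tw (r + s)).obj M)
  generated : ∀ M : T.C, Gen (T.From IsSmProj) M

end

section rep

variable {Ω : Type} [Field Ω] {G H : Type} [Group G] [Group H]

/-- After the identifications `e a` the elements of the groups `G` and `H` act in the same way
(simultaneously for all `a`). -/
def SameActions {m : ℕ} {A : Fin m → Rep.{0} Ω G} {B : Fin m → Rep.{0} Ω H}
    (e : ∀ a, A a ≃ₗ[Ω] B a) : Prop :=
  (∀ g, ∃ h, ∀ a x, e a (act (A a) g x) = act (B a) h (e a x)) ∧
    ∀ h, ∃ g, ∀ a x, e a (act (A a) g x) = act (B a) h (e a x)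

/-- The representation `B` of `G` is induced from the representation `A` of `H`, by the homomorphism
`j : H → G`: the representation `A` is a direct factor of the restriction of `B` to `H`, with inclusion
`s` and projection `p`, and the translates of this factor by the elements of `G` outside of the image
of `H` are in the kernel of the projection. -/
def InducedBy (j : H →* G) {A : Rep.{0} Ω H} {B : Rep.{0} Ω G} (s : A →ₗ[Ω] B)
    (p : B →ₗ[Ω] A) : Prop :=
  (∀ x, p (s x) = x) ∧ (∀ h x, s (act A h x) = act B (j h) (s x)) ∧
    (∀ h y, p (act B (j h) y) = act A h (p y)) ∧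
    ∀ g, (∀ h, g ≠ j h) → ∀ x, p (act B g (s x)) = 0

end rep

section theory

variable {Ω : Type} [Field Ω] {k K : Type} [Field k] [Field K]

/-- The motives `N a` over `K` are specializations of the motives `M a` over `k` with the same Galois
images and the same homomorphisms: after an identification of the realizations the elements of the
two Galois groups act (simultaneously on all of them) in the same way, and the homomorphisms between
the `N a` come from homomorphisms between the `M a`. -/
def Specializes (T : Motives k Ω) (T' : Motives K Ω) {m : ℕ} (M : Fin m → T.C)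
    (N : Fin m → T'.C) : Prop :=
  ∃ e : ∀ a, T'.F.obj (N a) ≃ₗ[Ω] T.F.obj (M a), SameActions e ∧
    ∀ a b (f : N a ⟶ N b), T.IsMotivic ((e b).toLinearMap ∘ₗ T'.real f ∘ₗ (e a).symm.toLinearMap)

/-- The motives `N a` over `k` are the restrictions of scalars of the motives `M a` over the finite
extension `K` of `k`: the realization of `N a` is the representation induced from the one of `M a`,
by the homomorphism `j` of the Galois groups, whose image has finite index, with inclusion `s a` and
projection `p a`, and for a homomorphism `f` from `N a` to `N b` the map `p b ∘ f ∘ s a` is the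
realization of a homomorphism from `M a` to `M b`. -/
def Restricts (T : Motives k Ω) (T' : Motives K Ω) {m : ℕ} (M : Fin m → T'.C)
    (N : Fin m → T.C) : Prop :=
  ∃ (j : Field.absoluteGaloisGroup K →* Field.absoluteGaloisGroup k)
    (s : ∀ a, T'.F.obj (M a) →ₗ[Ω] T.F.obj (N a)) (p : ∀ a, T.F.obj (N a) →ₗ[Ω] T'.F.obj (M a)),
    j.range.FiniteIndex ∧ (∀ a, InducedBy j (s a) (p a)) ∧
    ∀ a b (f : N a ⟶ N b), T'.IsMotivic (p b ∘ₗ T.real f ∘ₗ s a)

/-- Theories of motives over all fields of characteristic zero.

* `field`: the properties over one field;
* `specialization` (Serre and Terasoma for the Galois images, André's deformation principle for the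
  homomorphisms): finitely many motives over a finitely generated field have specializations over a
  number field with the same Galois images and homomorphisms;
* `restriction`: restriction of scalars from a number field to `ℚ`;
* `faltings`: over finitely generated fields the motivic Tate conjecture is true for curves. -/
structure IsTheory (T : ∀ (k : Type) [Field k] [CharZero k], Motives k Ω) : Prop where
  field : ∀ (k : Type) [Field k] [CharZero k], IsMotives (T k)
  specialization : ∀ (k : Type) [Field k] [CharZero k], IsFG k → ∀ (m : ℕ) (M : Fin m → (T k).C),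
    ∃ (K : Type) (_ : Field K) (_ : NumberField K) (N : Fin m → (T K).C),
      Specializes (T k) (T K) M N
  restriction : ∀ (K : Type) [Field K] [NumberField K] (m : ℕ) (M : Fin m → (T K).C),
    ∃ N : Fin m → (T ℚ).C, Restricts (T ℚ) (T K) M N
  faltings : ∀ (k : Type) [Field k] [CharZero k], IsFG k → (T k).TateFor (SmProjUpTo 1)

/-- **The motivic Tate conjecture** (Q1): for all finitely generated fields `k` of characteristic zero,
the realizations of all motives over `k` are semisimple, and all homomorphisms of Galois
representations between them are linear combinations of homomorphisms of motives. (Equivalently, the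
`ℓ`-adic monodromy group of every motive is the full motivic Galois group.) -/
def MotivicTate (T : ∀ (k : Type) [Field k] [CharZero k], Motives k Ω) : Prop :=
  ∀ (k : Type) [Field k] [CharZero k], IsFG k → (T k).TateOn fun _ => True

end theory

end Pool.Agent.V5helper48.MT
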