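import Pool.Agent.V5helper48.MT.Defs

/-!
# The motivic Tate conjecture: direct sums, direct summands, restriction of scalars, specialization
-/

set_option autoImplicit false
set_option linter.unusedSectionVars false

open CategoryTheory CategoryTheory.Limits AlgebraicGeometry Pool.Agent.Y116.UV
  Pool.Agent.V5helper77.GW Pool.Agent.V5helper77.GS

namespace Pool.Agent.V5helper48.MT

section rep

variable {Ω : Type} [Field Ω]

lemma span_comp {A B C D : Type} [AddCommGroup A] [Module Ω A] [AddCommGroup B] [Module Ω B]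
    [AddCommGroup C] [Module Ω C] [AddCommGroup D] [Module Ω D] {S : Set (A →ₗ[Ω] B)}
    {S' : Set (C →ₗ[Ω] D)} (u : C →ₗ[Ω] A) (v : B →ₗ[Ω] D)
    (h : ∀ f ∈ S, v ∘ₗ f ∘ₗ u ∈ Submodule.span Ω S') {φ : A →ₗ[Ω] B}
    (hφ : φ ∈ Submodule.span Ω S) : v ∘ₗ φ ∘ₗ u ∈ Submodule.span Ω S' := by
  induction hφ using Submodule.span_induction with
  | mem x hx => exact h x hx
  | zero =>
    have h1 : v ∘ₗ (0 : A →ₗ[Ω] B) ∘ₗ u = 0 := by
      ext x; simp
    rw [h1]
    exact Submodule.zero_mem _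
  | add x y _ _ hx hy =>
    have h1 : v ∘ₗ (x + y) ∘ₗ u = v ∘ₗ x ∘ₗ u + v ∘ₗ y ∘ₗ u := by
      ext z; simp
    rw [h1]
    exact Submodule.add_mem _ hx hy
  | smul c x _ hx =>
    have h1 : v ∘ₗ (c • x) ∘ₗ u = c • (v ∘ₗ x ∘ₗ u) := by
      ext z; simp
    rw [h1]
    exact Submodule.smul_mem _ _ hx

variable {G H : Type} [Group G] [Group H]

lemma IsEquivariant.comp {A B C : Rep.{0} Ω G} {φ : A →ₗ[Ω] B} {ψ : B →ₗ[Ω] C}
    (hψ : IsEquivariant ψ) (hφ : IsEquivariant φ) : IsEquivariant (ψ ∘ₗ φ : A →ₗ[Ω] C) := by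
  intro g x
  change ψ (φ (act A g x)) = act C g (ψ (φ x))
  rw [hφ, hψ]

/-- The homomorphism of induced representations which is given by a homomorphism of the inducing
representations. -/
theorem induced_hom (j : H →* G) (hj : j.range.FiniteIndex) {A A' : Rep.{0} Ω H}
    {B B' : Rep.{0} Ω G} (p : B →ₗ[Ω] A) (s' : A' →ₗ[Ω] B')
    (hp : ∀ h y, p (act B (j h) y) = act A h (p y))
    (hs' : ∀ h x, s' (act A' h x) = act B' (j h) (s' x))
    (φ : A →ₗ[Ω] A') (hφ : IsEquivariant φ) :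
    ∃ Φ : B →ₗ[Ω] B', IsEquivariant Φ ∧ ∀ (s : A →ₗ[Ω] B) (p' : B' →ₗ[Ω] A'),
      (∀ x, p (s x) = x) → (∀ x, p' (s' x) = x) →
      (∀ g, (∀ h, g ≠ j h) → ∀ x, p (act B g (s x)) = 0) →
      (∀ h y, p' (act B' (j h) y) = act A' h (p' y)) →
      ∀ x, p' (Φ (s x)) = φ x := by
  classical
  have hfin : Finite (G ⧸ j.range) := Subgroup.finite_quotient_of_finiteIndex
  have hft : Fintype (G ⧸ j.range) := Fintype.ofFinite _
  let ψ : B →ₗ[Ω] B' := s' ∘ₗ φ ∘ₗ p
  have hψ : ∀ h y, ψ (act B (j h) y) = act B' (j h) (ψ y) := by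
    intro h y
    change s' (φ (p (act B (j h) y))) = act B' (j h) (s' (φ (p y)))
    rw [hp, hφ, hs']
  let t : G → B →ₗ[Ω] B' := fun g => (B'.ρ g) ∘ₗ ψ ∘ₗ (B.ρ g⁻¹)
  have ht : ∀ g y, t g y = act B' g (ψ (act B g⁻¹ y)) := fun _ _ => rfl
  have ht1 : ∀ g h, t (g * j h) = t g := by
    intro g h
    ext y
    have h1 : act B (g * j h)⁻¹ y = act B (j h⁻¹) (act B g⁻¹ y) := by
      rw [act_mul, mul_inv_rev, map_inv]
    rw [ht, ht, h1, hψ, act_mul, map_inv, mul_inv_cancel_right]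
  have ht2 : ∀ g g' : G, (QuotientGroup.mk g : G ⧸ j.range) = QuotientGroup.mk g' →
      t g = t g' := by
    intro g g' h
    rw [QuotientGroup.eq] at h
    obtain ⟨h', hh⟩ := h
    have h1 : g' = g * j h' := by rw [hh]; group
    rw [h1, ht1]
  let τ : G ⧸ j.range → B →ₗ[Ω] B' := fun c => t c.out
  have hτ : ∀ g : G, τ (QuotientGroup.mk g) = t g := by
    intro g
    apply ht2
    exact Quotient.out_eq' (QuotientGroup.mk g)
  refine ⟨∑ c, τ c, ?_, ?_⟩
  · intro g y
    rw [LinearMap.sum_apply, LinearMap.sum_apply]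
    have h1 : act B' g (∑ c, τ c y) = ∑ c, act B' g (τ c y) := map_sum (B'.ρ g) _ _
    rw [h1]
    rw [← Equiv.sum_comp (MulAction.toPerm g : Equiv.Perm (G ⧸ j.range))
      (fun c => τ c (act B g y))]
    refine Finset.sum_congr rfl fun c _ => ?_
    obtain ⟨g', rfl⟩ := QuotientGroup.mk_surjective c
    have h2 : (MulAction.toPerm g : Equiv.Perm (G ⧸ j.range)) (QuotientGroup.mk g') =
        QuotientGroup.mk (g * g') := rfl
    rw [h2, hτ, hτ, ht, ht, act_mul, act_mul]
    congr 3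
    group
  · intro s p' h1 h2 h3 h4 x
    rw [LinearMap.sum_apply, map_sum, Finset.sum_eq_single (QuotientGroup.mk 1)]
    · rw [hτ, ht]
      have h5 : act B (1 : G)⁻¹ (s x) = s x := by rw [inv_one, act_one]
      rw [h5, act_one]
      change p' (s' (φ (p (s x)))) = φ x
      rw [h1, h2]
    · intro c _ hc
      obtain ⟨g, rfl⟩ := QuotientGroup.mk_surjective c
      rw [hτ, ht]
      have h5 : p (act B g⁻¹ (s x)) = 0 := by
        refine h3 g⁻¹ (fun h hh => hc ?_) x
        rw [QuotientGroup.eq]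
        rw [mul_one]
        exact ⟨h, hh.symm⟩
      have h6 : ψ (act B g⁻¹ (s x)) = 0 := by
        change s' (φ (p (act B g⁻¹ (s x)))) = 0
        rw [h5, map_zero, map_zero]
      rw [h6, act_zero, map_zero]
    · intro h
      exact absurd (Finset.mem_univ _) h

end rep

section motives

variable {k : Type} [Field k] {Ω : Type} [Field Ω] (T : Motives k Ω)

lemma real_apply {M N : T.C} (f : M ⟶ N) (x : T.F.obj M) : T.real f x = (T.F.map f).hom x := rfl

lemma real_comp {M N P : T.C} (f : M ⟶ N) (g : N ⟶ P) : T.real (f ≫ g) = T.real g ∘ₗ T.real f := by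
  ext x
  change (T.F.map (f ≫ g)).hom x = (T.F.map g).hom ((T.F.map f).hom x)
  rw [T.F.map_comp]
  rfl

lemma real_id (M : T.C) : T.real (𝟙 M) = LinearMap.id := by
  ext x
  change (T.F.map (𝟙 M)).hom x = x
  rw [T.F.map_id]
  rfl

lemma real_add [T.F.Additive] {M N : T.C} (f g : M ⟶ N) : T.real (f + g) = T.real f + T.real g := by
  ext x
  change (T.F.map (f + g)).hom x = (T.F.map f).hom x + (T.F.map g).hom x
  rw [T.F.map_add]
  rfl

lemma real_equivariant {M N : T.C} (f : M ⟶ N) : IsEquivariant (T.real f) := by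
  intro g x
  exact Rep.hom_comm_apply (T.F.map f) g x

variable {T}

lemma real_mem {M N : T.C} (f : M ⟶ N) : T.real f ∈ Submodule.span Ω {ψ | T.IsMotivic ψ} :=
  Submodule.subset_span ⟨f, rfl⟩

variable (T) in
/-- fullness with the linear span -/
def SpanFull (M N : T.C) : Prop :=
  ∀ φ : T.F.obj M →ₗ[Ω] T.F.obj N, IsEquivariant φ → φ ∈ Submodule.span Ω {ψ | T.IsMotivic ψ}

lemma full_iff {M N : T.C} : T.Full M N ↔ SpanFull T M N := by
  constructor
  · intro h φ hφ
    obtain ⟨n, c, f, h1⟩ := h φ hφ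
    have h2 : φ = ∑ i, c i • T.real (f i) := by
      ext x
      rw [h1, LinearMap.sum_apply]
      rfl
    rw [h2]
    exact Submodule.sum_mem _ fun i _ => Submodule.smul_mem _ _ (real_mem _)
  · intro h φ hφ
    obtain ⟨n, c, g, h1⟩ := Submodule.mem_span_set'.mp (h φ hφ)
    choose f hf using fun i => (g i).2
    refine ⟨n, c, f, fun x => ?_⟩
    rw [← h1, LinearMap.sum_apply]
    refine Finset.sum_congr rfl fun i _ => ?_
    rw [hf]
    rfl

lemma full_zero_left [T.F.Additive] {M : T.C} (hM : IsZero M) (N : T.C) : SpanFull T M N := by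
  intro φ _
  have h1 := T.F.map_isZero hM
  rw [Rep.isZero_iff] at h1
  have h2 : φ = 0 := by
    ext x
    rw [Subsingleton.elim x 0, map_zero, map_zero]
  rw [h2]
  exact Submodule.zero_mem _

lemma full_zero_right [T.F.Additive] (M : T.C) {N : T.C} (hN : IsZero N) : SpanFull T M N := by
  intro φ _
  have h1 := T.F.map_isZero hN
  rw [Rep.isZero_iff] at h1
  have h2 : φ = 0 := by
    ext x
    exact Subsingleton.elim _ _
  rw [h2]
  exact Submodule.zero_mem _

lemma full_retract_left {M M' N : T.C} (i : M ⟶ M') (r : M' ⟶ M) (hir : i ≫ r = 𝟙 M)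
    (h : SpanFull T M' N) : SpanFull T M N := by
  intro φ hφ
  have h1 := h (φ ∘ₗ T.real r) (hφ.comp (real_equivariant T r))
  have h2 := span_comp (S' := {ψ : T.F.obj M →ₗ[Ω] T.F.obj N | T.IsMotivic ψ}) (T.real i) LinearMap.id
    (fun f hf => by
      obtain ⟨f, rfl⟩ := hf
      rw [LinearMap.id_comp]
      rw [← real_comp]
      exact real_mem _) h1
  rwa [LinearMap.id_comp, LinearMap.comp_assoc, ← real_comp, hir, real_id, LinearMap.comp_id] at h2

lemma full_retract_right {M N N' : T.C} (i : N ⟶ N') (r : N' ⟶ N) (hir : i ≫ r = 𝟙 N)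
    (h : SpanFull T M N') : SpanFull T M N := by
  intro φ hφ
  have h1 := h (T.real i ∘ₗ φ) ((real_equivariant T i).comp hφ)
  have h2 := span_comp (S' := {ψ : T.F.obj M →ₗ[Ω] T.F.obj N | T.IsMotivic ψ}) LinearMap.id (T.real r)
    (fun f hf => by
      obtain ⟨f, rfl⟩ := hf
      rw [LinearMap.comp_id]
      rw [← real_comp]
      exact real_mem _) h1
  rwa [LinearMap.comp_id, ← LinearMap.comp_assoc, ← real_comp, hir, real_id,
    LinearMap.id_comp] at h2

lemma full_sum_left [T.F.Additive] {M M' N : T.C} (h : SpanFull T M N) (h' : SpanFull T M' N) :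
    SpanFull T (M ⊞ M') N := by
  intro φ hφ
  have h1 := h (φ ∘ₗ T.real biprod.inl) (hφ.comp (real_equivariant T _))
  have h2 := h' (φ ∘ₗ T.real biprod.inr) (hφ.comp (real_equivariant T _))
  have h3 := span_comp (S' := {ψ : T.F.obj (M ⊞ M') →ₗ[Ω] T.F.obj N | T.IsMotivic ψ})
    (T.real (biprod.fst : M ⊞ M' ⟶ M)) LinearMap.id
    (fun f hf => by
      obtain ⟨f, rfl⟩ := hf
      rw [LinearMap.id_comp]
      rw [← real_comp]
      exact real_mem _) h1
  have h4 := span_comp (S' := {ψ : T.F.obj (M ⊞ M') →ₗ[Ω] T.F.obj N | T.IsMotivic ψ})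
    (T.real (biprod.snd : M ⊞ M' ⟶ M')) LinearMap.id
    (fun f hf => by
      obtain ⟨f, rfl⟩ := hf
      rw [LinearMap.id_comp]
      rw [← real_comp]
      exact real_mem _) h2
  rw [LinearMap.id_comp, LinearMap.comp_assoc, ← real_comp] at h3 h4
  have h5 := Submodule.add_mem _ h3 h4
  rwa [← LinearMap.comp_add, ← real_add, biprod.total, real_id, LinearMap.comp_id] at h5

lemma full_sum_right [T.F.Additive] {M N N' : T.C} (h : SpanFull T M N) (h' : SpanFull T M N') :
    SpanFull T M (N ⊞ N') := by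
  intro φ hφ
  have h1 := h (T.real (biprod.fst : N ⊞ N' ⟶ N) ∘ₗ φ) ((real_equivariant T _).comp hφ)
  have h2 := h' (T.real (biprod.snd : N ⊞ N' ⟶ N') ∘ₗ φ) ((real_equivariant T _).comp hφ)
  have h3 := span_comp (S' := {ψ : T.F.obj M →ₗ[Ω] T.F.obj (N ⊞ N') | T.IsMotivic ψ})
    LinearMap.id (T.real (biprod.inl : N ⟶ N ⊞ N'))
    (fun f hf => by
      obtain ⟨f, rfl⟩ := hf
      rw [LinearMap.comp_id]
      rw [← real_comp]
      exact real_mem _) h1
  have h4 := span_comp (S' := {ψ : T.F.obj M →ₗ[Ω] T.F.obj (N ⊞ N') | T.IsMotivic ψ})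
    LinearMap.id (T.real (biprod.inr : N' ⟶ N ⊞ N'))
    (fun f hf => by
      obtain ⟨f, rfl⟩ := hf
      rw [LinearMap.comp_id]
      rw [← real_comp]
      exact real_mem _) h2
  rw [LinearMap.comp_id, ← LinearMap.comp_assoc, ← real_comp] at h3 h4
  have h5 := Submodule.add_mem _ h3 h4
  rwa [← LinearMap.add_comp, ← real_add, biprod.total, real_id, LinearMap.id_comp] at h5

lemma semisimple_zero [T.F.Additive] {M : T.C} (hM : IsZero M) : T.Semisimple M := by
  have h1 := T.F.map_isZero hM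
  rw [Rep.isZero_iff] at h1
  change IsSemisimpleRep (T.F.obj M)
  rw [ss_iff]
  intro W _
  refine ⟨W, fun g x hx => ?_, ?_⟩
  · have h2 : act (T.F.obj M) g x = x := Subsingleton.elim _ _
    rw [h2]
    exact hx
  · constructor
    · rw [Submodule.disjoint_def]
      exact fun x _ _ => Subsingleton.elim _ _
    · rw [codisjoint_iff, eq_top_iff]
      intro x _
      have h2 : x = 0 := Subsingleton.elim _ _
      rw [h2]
      exact Submodule.zero_mem _

lemma semisimple_retract {M N : T.C} (i : M ⟶ N) (r : N ⟶ M) (h : i ≫ r = 𝟙 M)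
    (hN : T.Semisimple N) : T.Semisimple M := by
  refine ss_retract (T.F.map i) ?_ hN
  intro x y hxy
  have h1 : T.F.map i ≫ T.F.map r = 𝟙 _ := by rw [← T.F.map_comp, h, T.F.map_id]
  have h2 : ∀ z, (T.F.map r).hom ((T.F.map i).hom z) = z := by
    intro z
    have h3 := Rep.comp_apply (T.F.map i) (T.F.map r) z
    rw [h1, Rep.id_apply] at h3
    exact h3.symm
  rw [← h2 x, hxy, h2 y]

lemma semisimple_sum [T.F.Additive] {M N : T.C} (hM : T.Semisimple M) (hN : T.Semisimple N) :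
    T.Semisimple (M ⊞ N) := by
  refine ss_sum (T.F.map biprod.inl) (T.F.map biprod.inr) (fun x => ?_) hM hN
  refine ⟨(T.F.map (biprod.fst : M ⊞ N ⟶ M)).hom x, (T.F.map (biprod.snd : M ⊞ N ⟶ N)).hom x, ?_⟩
  have h1 : T.F.map (biprod.fst : M ⊞ N ⟶ M) ≫ T.F.map biprod.inl +
      T.F.map (biprod.snd : M ⊞ N ⟶ N) ≫ T.F.map biprod.inr = 𝟙 _ := by
    rw [← T.F.map_comp, ← T.F.map_comp, ← T.F.map_add, biprod.total, T.F.map_id]
  have h2 := congrArg (fun f : T.F.obj (M ⊞ N) ⟶ T.F.obj (M ⊞ N) => f.hom x) h1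
  exact h2.symm

/-- The motivic Tate conjecture passes to sums and direct summands. -/
theorem tateOn_gen [T.F.Additive] {P : T.C → Prop} (h : T.TateOn P) : T.TateOn (Gen P) := by
  have hs : ∀ M, Gen P M → T.Semisimple M := by
    intro M hM
    induction hM with
    | of h' => exact (h _ _ h' h').1
    | zero h' => exact semisimple_zero h'
    | retract i r h' _ ih => exact semisimple_retract i r h' ih
    | sum _ _ ih1 ih2 => exact semisimple_sum ih1 ih2
  have h1 : ∀ N, P N → ∀ M, Gen P M → SpanFull T M N := by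
    intro N hN M hM
    induction hM with
    | of h' => exact full_iff.mp (h _ _ h' hN).2
    | zero h' => exact full_zero_left h' _
    | retract i r h' _ ih => exact full_retract_left i r h' ih
    | sum _ _ ih1 ih2 => exact full_sum_left ih1 ih2
  intro M N hM hN
  refine ⟨hs M hM, full_iff.mpr ?_⟩
  induction hN with
  | of h' => exact h1 _ h' M hM
  | zero h' => exact full_zero_right _ h'
  | retract i r h' _ ih => exact full_retract_right i r h' ih
  | sum _ _ ih1 ih2 => exact full_sum_right ih1 ih2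

end motives

section transfer

variable {Ω : Type} [Field Ω] {k K : Type} [Field k] [Field K] {T : Motives k Ω}
  {T' : Motives K Ω} {m : ℕ}

theorem Specializes.semisimple {M : Fin m → T.C} {N : Fin m → T'.C} (h : Specializes T T' M N)
    (a : Fin m) (hN : T'.Semisimple (N a)) : T.Semisimple (M a) := by
  obtain ⟨e, ⟨h1, h2⟩, _⟩ := h
  refine SameImage.ss (A := T'.F.obj (N a)) ⟨e a, fun g => ?_, fun g => ?_⟩ hN
  · obtain ⟨g', h3⟩ := h1 g
    exact ⟨g', fun x => h3 a x⟩
  · obtain ⟨g', h3⟩ := h2 g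
    exact ⟨g', fun x => h3 a x⟩

theorem Specializes.full {M : Fin m → T.C} {N : Fin m → T'.C} (h : Specializes T T' M N)
    (a b : Fin m) (hN : T'.Full (N a) (N b)) : T.Full (M a) (M b) := by
  rw [full_iff] at hN ⊢
  obtain ⟨e, ⟨h1, h2⟩, h3⟩ := h
  intro φ hφ
  have h4 := hN ((e b).symm.toLinearMap ∘ₗ φ ∘ₗ (e a).toLinearMap) (by
    intro g x
    obtain ⟨g', h5⟩ := h1 g
    change (e b).symm (φ (e a (act _ g x))) = act _ g ((e b).symm (φ (e a x)))
    rw [h5, hφ, LinearEquiv.symm_apply_eq, h5, LinearEquiv.apply_symm_apply])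
  have h5 := span_comp (S' := {ψ : T.F.obj (M a) →ₗ[Ω] T.F.obj (M b) | T.IsMotivic ψ})
    (e a).symm.toLinearMap (e b).toLinearMap (fun f hf => by
      obtain ⟨f, rfl⟩ := hf
      exact Submodule.subset_span (h3 a b f)) h4
  have h6 : (e b).toLinearMap ∘ₗ ((e b).symm.toLinearMap ∘ₗ φ ∘ₗ (e a).toLinearMap) ∘ₗ
      (e a).symm.toLinearMap = φ := by
    ext x
    change e b ((e b).symm (φ (e a ((e a).symm x)))) = φ x
    rw [LinearEquiv.apply_symm_apply, LinearEquiv.apply_symm_apply]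
  rwa [h6] at h5

theorem Restricts.semisimple {M : Fin m → T'.C} {N : Fin m → T.C} (h : Restricts T T' M N)
    (a : Fin m) (hN : T.Semisimple (N a)) : T'.Semisimple (M a) := by
  obtain ⟨j, s, p, _, h1, _⟩ := h
  exact IsInduced.ss (B := T.F.obj (N a)) ⟨j, s a, p a, h1 a⟩ hN

theorem Restricts.full {M : Fin m → T'.C} {N : Fin m → T.C} (h : Restricts T T' M N)
    (a b : Fin m) (hN : T.Full (N a) (N b)) : T'.Full (M a) (M b) := by
  rw [full_iff] at hN ⊢
  obtain ⟨j, s, p, hj, h1, h5⟩ := h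
  intro φ hφ
  obtain ⟨Φ, h6, h7⟩ := induced_hom j hj (p a) (s b) (h1 a).2.2.1 (h1 b).2.1 φ hφ
  have h8 := h7 (s a) (p b) (h1 a).1 (h1 b).1 (h1 a).2.2.2 (h1 b).2.2.1
  have h9 := span_comp (S' := {ψ : T'.F.obj (M a) →ₗ[Ω] T'.F.obj (M b) | T'.IsMotivic ψ})
    (s a) (p b) (fun f hf => by
      obtain ⟨f, rfl⟩ := hf
      exact Submodule.subset_span (h5 a b f)) (hN Φ h6)
  have h10 : p b ∘ₗ Φ ∘ₗ s a = φ := by
    ext x
    exact h8 x
  rwa [h10] at h9

end transfer

end Pool.Agent.V5helper48.MT
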