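import Pool.Agent.V5helper48.MT.Full

/-!
# The motivic Tate conjecture and cubic hypersurfaces
-/

set_option autoImplicit false
set_option linter.unusedSectionVars false

open CategoryTheory CategoryTheory.Limits AlgebraicGeometry Pool.Agent.Y116.UV
  Pool.Agent.Z125.UN Pool.Agent.Q193.LT Pool.Agent.V5helper77.GW Pool.Agent.V5helper77.GS

namespace Pool.Agent.V5helper48.MT

section gen

variable {C : Type 1} [Category.{0} C] [Abelian C] {P Q : C → Prop}

lemma Gen.iso {M N : C} (h : Gen P N) (e : Nonempty (M ≅ N)) : Gen P M :=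
  Gen.retract e.some.hom e.some.inv e.some.hom_inv_id h

lemma Gen.trans {M : C} (hM : Gen P M) (h : ∀ M, P M → Gen Q M) : Gen Q M := by
  induction hM with
  | of h' => exact h _ h'
  | zero h' => exact .zero h'
  | retract i r h' _ ih => exact .retract i r h' ih
  | sum _ _ ih1 ih2 => exact .sum ih1 ih2

lemma Gen.map (F : C ⥤ C) [F.Additive] (h : ∀ M, P M → Gen Q (F.obj M)) {M : C}
    (hM : Gen P M) : Gen Q (F.obj M) := by
  induction hM with
  | of h' => exact h _ h'
  | zero h' => exact .zero (F.map_isZero h')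
  | retract i r h' _ ih =>
    exact .retract (F.map i) (F.map r) (by rw [← F.map_comp, h', F.map_id]) ih
  | @sum M N _ _ ih1 ih2 =>
    refine .retract (biprod.lift (F.map biprod.fst) (F.map biprod.snd))
      (biprod.desc (F.map biprod.inl) (F.map biprod.inr)) ?_ (.sum ih1 ih2)
    rw [biprod.lift_desc, ← F.map_comp, ← F.map_comp, ← F.map_add, biprod.total, F.map_id]

end gen

section motives

variable {k : Type} [Field k] {Ω : Type} [Field Ω] {T : Motives k Ω} (hT : IsMotives T)

include hT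

lemma gen_tw (𝒳 : Sch k → Prop) {M : T.C} (r : ℤ) (h : Gen (T.From 𝒳) M) :
    Gen (T.From 𝒳) ((T.tw r).obj M) := by
  have := hT.tw_additive r
  refine Gen.map (T.tw r) ?_ h
  rintro M ⟨X, hX, w, n, s, rfl⟩
  exact Gen.iso (.of ⟨X, hX, w, n, r + s, rfl⟩) (hT.tw_add r s _)

lemma gen_tw_iff (𝒳 : Sch k → Prop) {M : T.C} (r : ℤ) :
    Gen (T.From 𝒳) ((T.tw r).obj M) ↔ Gen (T.From 𝒳) M := by
  refine ⟨fun h => ?_, gen_tw hT 𝒳 r⟩
  have h1 := gen_tw hT 𝒳 (-r) h
  have h2 := hT.tw_add (-r) r M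
  rw [neg_add_cancel] at h2
  exact Gen.iso (Gen.iso h1 ⟨h2.some.symm⟩) ⟨(hT.tw_zero M).some.symm⟩

/-- The class generated by the cohomology of the schemes in `𝒳`. -/
theorem twistClass (𝒳 : Sch k → Prop) :
    IsTwistClass (fun _ M => Gen (T.From 𝒳) M) fun r => (T.tw r).obj where
  zero _ _ h := .zero h
  retract _ _ _ i r h h' := .retract i r h h'
  sum _ _ _ h h' := .sum h h'
  twist _ r _ := gen_tw_iff hT 𝒳 r

lemma pieces (𝒳 : Sch k → Prop) {X : Sch k} (hX : 𝒳 X ∨ X = aff k k) :
    AllPieces T.V (fun _ M => Gen (T.From 𝒳) M) X := fun w n =>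
  Gen.iso (.of ⟨X, hX, w, n, 0, rfl⟩) ⟨(hT.tw_zero _).some.symm⟩

/-- Comparison of two classes of schemes. -/
theorem gen_le {𝒳 𝒴 : Sch k → Prop}
    (h : ∀ X, 𝒳 X → AllPieces T.V (fun _ M => Gen (T.From 𝒴) M) X) {M : T.C}
    (hM : Gen (T.From 𝒳) M) : Gen (T.From 𝒴) M := by
  refine hM.trans ?_
  rintro M ⟨X, hX, w, n, r, rfl⟩
  refine gen_tw hT 𝒴 r ?_
  rcases hX with hX | hX
  · exact h X hX w n
  · exact pieces hT 𝒴 (Or.inr hX) w n

omit hT in
lemma ft_of_smProj {X : Sch k} (hX : IsSmProj X) : FT True X := by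
  have hp := hX.proper
  exact ⟨inferInstance, inferInstance, fun _ => inferInstance⟩

/-- The same motives are generated by the smooth projective varieties of dimension at most `n`, by
all schemes of dimension at most `n`, and by the trilinear forms with a block of at most `n + 2`
variables. -/
theorem field_graded [CharZero k] (hH : Hironaka k) (n : ℕ) (M : T.C) :
    (Gen (T.From (SmProjUpTo n)) M ↔ Gen (T.From (SchemesUpTo n)) M) ∧
    (Gen (T.From (SmProjUpTo n)) M ↔ Gen (T.From (CubicsUpTo (n + 2))) M) := by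
  refine ⟨⟨gen_le hT ?_, gen_le hT ?_⟩, ⟨gen_le hT ?_, gen_le hT ?_⟩⟩
  · intro X hX
    exact pieces hT _ (Or.inl ⟨ft_of_smProj hX.1, hX.2⟩)
  · intro X hX
    exact (graded_iff hT.theory (twistClass hT (SmProjUpTo n)) (pieces hT _ (Or.inr rfl)) hH n).1.mp
      (fun Y hY hd i => pieces hT (SmProjUpTo n) (Or.inl ⟨hY, hd⟩) i i) X hX.1 hX.2
  · intro X hX
    have h1 := (graded_iff hT.theory (twistClass hT (CubicsUpTo (n + 2)))
      (pieces hT _ (Or.inr rfl)) hH n).2.mpr
      (fun a b c S h => pieces hT (CubicsUpTo (n + 2)) (Or.inl ⟨a, b, c, S, h, rfl⟩))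
    intro w i
    by_cases hwi : w = i
    · subst hwi
      exact h1 X hX.1 hX.2 w
    · exact .zero (hT.theory.pure X hX.1 w i hwi)
  · rintro X ⟨a, b, c, S, h, rfl⟩
    exact (graded_iff hT.theory (twistClass hT (SmProjUpTo n)) (pieces hT _ (Or.inr rfl)) hH n).2.mp
      (fun Y hY hd i => pieces hT (SmProjUpTo n) (Or.inl ⟨hY, hd⟩) i i) a b c S h

/-- The conjecture depends only on the generated class. -/
theorem tateFor_congr {𝒳 𝒴 : Sch k → Prop}
    (h : ∀ M, Gen (T.From 𝒳) M ↔ Gen (T.From 𝒴) M) : T.TateFor 𝒳 ↔ T.TateFor 𝒴 := by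
  have := hT.additive
  constructor
  · intro h1 M N hM hN
    exact tateOn_gen h1 M N ((h M).mpr (.of hM)) ((h N).mpr (.of hN))
  · intro h1 M N hM hN
    exact tateOn_gen h1 M N ((h M).mp (.of hM)) ((h N).mp (.of hN))

theorem field_tate [CharZero k] (hH : Hironaka k) (n : ℕ) :
    (T.TateFor (SmProjUpTo n) ↔ T.TateFor (SchemesUpTo n)) ∧
    (T.TateFor (SmProjUpTo n) ↔ T.TateFor (CubicsUpTo (n + 2))) :=
  ⟨tateFor_congr hT fun M => (field_graded hT hH n M).1,
    tateFor_congr hT fun M => (field_graded hT hH n M).2⟩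

end motives

section rational

variable {Ω : Type} [Field Ω] {T : Motives ℚ Ω} (hT : IsMotives T)

include hT

/-- All motives over the rational numbers are generated by the hypergraph cubics. -/
theorem all_gen (M : T.C) : Gen (T.From HypergraphCubics) M := by
  refine gen_le hT (fun X hX => ?_) (hT.generated M)
  exact universal_frac frac_rat (bnd_pieces hT.theory (twistClass hT HypergraphCubics)
    (pieces hT _ (Or.inr rfl))).toUni
    (fun a b c H => pieces hT HypergraphCubics (Or.inl ⟨a, b, c, H, rfl⟩)) X (ft_of_smProj hX)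

end rational

section theory

variable {Ω : Type} [Field Ω] {T : ∀ (k : Type) [Field k] [CharZero k], Motives k Ω}

theorem motivic_iff (hT : IsTheory T) : MotivicTate T ↔ (T ℚ).TateFor HypergraphCubics := by
  have hQ := hT.field ℚ
  have := hQ.additive
  constructor
  · intro h M N _ _
    exact h ℚ fg_rat M N trivial trivial
  · intro h k _ _ hk M N _ _
    have h1 : ∀ M N : (T ℚ).C, (T ℚ).Semisimple M ∧ (T ℚ).Full M N := fun M N =>
      tateOn_gen h M N (all_gen hQ M) (all_gen hQ N)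
    obtain ⟨K, _, _, N', h2⟩ := hT.specialization k hk 2 ![M, N]
    obtain ⟨N'', h3⟩ := hT.restriction K 2 N'
    have h4 : ∀ a, (T K).Semisimple (N' a) := fun a => h3.semisimple a (h1 (N'' a) (N'' a)).1
    have h5 : ∀ a b, (T K).Full (N' a) (N' b) := fun a b => h3.full a b (h1 (N'' a) (N'' b)).2
    exact ⟨h2.semisimple 0 (h4 0), h2.full 0 1 (h5 0 1)⟩

end theory

end Pool.Agent.V5helper48.MT
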